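import Mathlib

set_option autoImplicit false

/-!
# Splitting `[0,1]` along geometric progressions

`q j = 2 ^ (-1 / 2 ^ j)`, `s k = 4 (q j) ^ k (1 - q j)` for `2 ^ j ≤ k < 2 ^ (j + 1)`. The partition at
time `n` has the lengths `s n, ..., s (2 n - 1)`.
-/

namespace Pool.Agent.Q107.IS

open Real

noncomputable def q (j : ℕ) : ℝ := Real.exp (-(Real.log 2 / 2 ^ j))

theorem q_pos (j : ℕ) : 0 < q j := Real.exp_pos _

theorem q_lt_one (j : ℕ) : q j < 1 := by
  unfold q
  rw [Real.exp_lt_one_iff]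
  have : 0 < Real.log 2 := Real.log_pos (by norm_num)
  have : 0 < Real.log 2 / 2 ^ j := by positivity
  linarith

theorem q_succ_sq (j : ℕ) : q (j + 1) ^ 2 = q j := by
  unfold q
  rw [← Real.exp_nat_mul]
  congr 1
  push_cast
  rw [pow_succ]
  ring

theorem q_zero : q 0 = 1 / 2 := by
  unfold q
  rw [pow_zero, div_one, Real.exp_neg, Real.exp_log (by norm_num)]
  norm_num

theorem q_mono {i j : ℕ} (h : i ≤ j) : q i ≤ q j := by
  unfold q
  apply Real.exp_le_exp.2
  have h0 : 0 < Real.log 2 := Real.log_pos (by norm_num)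
  have h1 : (2 : ℝ) ^ i ≤ 2 ^ j := pow_le_pow_right₀ (by norm_num) h
  have h2 : Real.log 2 / 2 ^ j ≤ Real.log 2 / 2 ^ i :=
    div_le_div_of_nonneg_left h0.le (by positivity) h1
  linarith

theorem q_pow_two_pow (j : ℕ) : q j ^ (2 ^ j) = 1 / 2 := by
  induction j with
  | zero => rw [pow_zero, pow_one, q_zero]
  | succ j ih => rw [pow_succ' 2 j, pow_mul, q_succ_sq, ih]

/-- the lengths -/
noncomputable def s (k : ℕ) : ℝ := 4 * q (Nat.log 2 k) ^ k * (1 - q (Nat.log 2 k))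

theorem s_eq {k j : ℕ} (h1 : 2 ^ j ≤ k) (h2 : k < 2 ^ (j + 1)) : s k = 4 * q j ^ k * (1 - q j) := by
  unfold s
  rw [(Nat.log_eq_iff (Or.inr ⟨by norm_num, by
    have := Nat.pos_of_ne_zero (pow_ne_zero j (two_ne_zero : (2 : ℕ) ≠ 0))
    omega⟩)).2 ⟨h1, h2⟩]

theorem s_pos (k : ℕ) : 0 < s k := by
  unfold s
  have h1 := q_pos (Nat.log 2 k)
  have h2 := q_lt_one (Nat.log 2 k)
  have h3 : 0 < 1 - q (Nat.log 2 k) := by linarith
  positivity

theorem exists_level {k : ℕ} (hk : 1 ≤ k) : ∃ j, 2 ^ j ≤ k ∧ k < 2 ^ (j + 1) :=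
  ⟨Nat.log 2 k, Nat.pow_log_le_self 2 (by omega), Nat.lt_pow_succ_log_self (by norm_num) k⟩

theorem s_split {k : ℕ} (hk : 1 ≤ k) : s k = s (2 * k) + s (2 * k + 1) := by
  obtain ⟨j, h1, h2⟩ := exists_level hk
  have e1 : 2 ^ (j + 1) ≤ 2 * k := by rw [pow_succ]; omega
  have e2 : 2 * k + 1 < 2 ^ (j + 1 + 1) := by rw [pow_succ _ (j + 1)]; omega
  rw [s_eq h1 h2, s_eq e1 (by omega), s_eq (by omega) e2, ← q_succ_sq j, ← pow_mul]
  ring

theorem s_one : s 1 = 1 := by
  rw [s_eq (j := 0) (by norm_num) (by norm_num), q_zero]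
  norm_num

theorem s_succ_le {k : ℕ} (hk : 1 ≤ k) : s (k + 1) ≤ s k := by
  obtain ⟨j, h1, h2⟩ := exists_level hk
  have a0 := q_pos j
  have a1 := q_lt_one j
  rcases Nat.lt_or_ge (k + 1) (2 ^ (j + 1)) with h3 | h3
  · rw [s_eq h1 h2, s_eq (by omega) h3, pow_succ]
    have : 0 < 4 * q j ^ k * (1 - q j) := by
      have : 0 < 1 - q j := by linarith
      positivity
    nlinarith
  · have h4 : k + 1 = 2 ^ (j + 1) := by omega
    have b0 := q_pos (j + 1)
    have b1 := q_lt_one (j + 1)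
    rw [s_eq h1 h2, s_eq (j := j + 1) (by omega) (by rw [pow_succ _ (j + 1)]; omega)]
    have e1 : q (j + 1) ^ (k + 1) = 1 / 2 := by rw [h4, q_pow_two_pow]
    have e2 : q j ^ (k + 1) = 1 / 4 := by
      rw [h4, pow_succ' 2 j, mul_comm, pow_mul, q_pow_two_pow]
      norm_num
    rw [e1]
    have e3 : q j ^ k * q j = 1 / 4 := by rw [← pow_succ, e2]
    have e4 := q_succ_sq j
    set x := q (j + 1)
    rw [← e4] at e3 ⊢
    have e5 : 0 < (x ^ 2) ^ k := by positivity
    -- 2 (1 - x) ≤ 4 y (1 - x ^ 2), y x ^ 2 = 1 / 4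
    have e6 : 1 / 4 ≤ (x ^ 2) ^ k := by
      have : (x ^ 2) ^ k * x ^ 2 ≤ (x ^ 2) ^ k * 1 :=
        mul_le_mul_of_nonneg_left (by nlinarith) e5.le
      linarith
    have e7 : x ^ 2 * (1 - x ^ 2) ≥ 0 := mul_nonneg (by positivity) (by nlinarith)
    have e8 : 2 * (1 - x) * x ^ 2 ≤ (4 * (x ^ 2) ^ k * (1 - x ^ 2)) * x ^ 2 := by
      have : (4 * (x ^ 2) ^ k * (1 - x ^ 2)) * x ^ 2 = 1 - x ^ 2 := by
        have : (4 * (x ^ 2) ^ k * (1 - x ^ 2)) * x ^ 2 = 4 * ((x ^ 2) ^ k * x ^ 2) * (1 - x ^ 2) := by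
          ring
        rw [this, e3]
        ring
      rw [this]
      nlinarith [mul_nonneg (by linarith : (0 : ℝ) ≤ 1 - x) (by nlinarith : (0 : ℝ) ≤ 1 + x - 2 * x ^ 2)]
    have e9 : 4 * (1 / 2) * (1 - x) = 2 * (1 - x) := by ring
    rw [e9]
    exact le_of_mul_le_mul_right e8 (by positivity)

theorem s_anti {k l : ℕ} (hk : 1 ≤ k) (h : k ≤ l) : s l ≤ s k := by
  induction l, h using Nat.le_induction with
  | base => exact le_rfl
  | succ l hl ih => exact (s_succ_le (by omega)).trans ih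

/-- the largest length is at most `q + q ^ 2` times the smallest one -/
theorem s_ratio {t J : ℕ} (ht : 1 ≤ t) (hJ : t < 2 ^ J) :
    s t ≤ (q J + q J ^ 2) * s (2 * t - 1) := by
  obtain ⟨j, h1, h2⟩ := exists_level ht
  have hj : j + 1 ≤ J := by
    by_contra h
    have : 2 ^ J ≤ 2 ^ j := Nat.pow_le_pow_right (by norm_num) (by omega)
    omega
  have b0 := q_pos (j + 1)
  have b1 := q_lt_one (j + 1)
  have c0 := q_pos J
  have key : s t ≤ (q (j + 1) + q (j + 1) ^ 2) * s (2 * t - 1) := by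
    rcases Nat.lt_or_ge (2 ^ j) t with h3 | h3
    · have e1 : 2 ^ (j + 1) ≤ 2 * t - 1 := by rw [pow_succ]; omega
      have e2 : 2 * t - 1 < 2 ^ (j + 1 + 1) := by rw [pow_succ _ (j + 1)]; omega
      rw [s_eq h1 h2, s_eq e1 e2, ← q_succ_sq j, ← pow_mul]
      have e3 : q (j + 1) ^ (2 * t) = q (j + 1) ^ (2 * t - 1) * q (j + 1) := by
        rw [← pow_succ]
        congr 1
        omega
      rw [e3]
      apply le_of_eq
      ring
    · have h4 : t = 2 ^ j := by omega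
      have e1 : 2 * t - 1 < 2 ^ (j + 1) := by rw [pow_succ]; omega
      rw [s_eq h1 h2, s_eq (by omega) e1]
      have e3 : q j ^ (2 * t - 1) * q j = q j ^ t * q j ^ t := by
        rw [← pow_succ, ← pow_add]
        congr 1
        omega
      have e4 : q j ^ t = 1 / 2 := by rw [h4, q_pow_two_pow]
      rw [e4] at e3 ⊢
      have a0 := q_pos j
      have a1 := q_lt_one j
      have e5 := q_succ_sq j
      set x := q (j + 1)
      set y := q j ^ (2 * t - 1)
      have hy : 0 < y := by positivity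
      have e6 : 4 * (1 / 2) * (1 - q j) = 2 * (1 - q j) := by ring
      rw [e6]
      have e7 : 2 ≤ (x + x ^ 2) * 4 * y := by
        -- y x ^ 2 = 1 / 4
        rw [← e5] at e3
        have : (x + x ^ 2) * 4 * y = 4 * y * x ^ 2 + 4 * y * x := by ring
        rw [this]
        have h5 : 4 * y * x ^ 2 = 1 := by linarith
        have h6 : 4 * y * x ^ 2 ≤ 4 * y * x := by
          apply mul_le_mul_of_nonneg_left _ (by positivity)
          nlinarith
        linarith
      calc 2 * (1 - q j) ≤ ((x + x ^ 2) * 4 * y) * (1 - q j) :=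
            mul_le_mul_of_nonneg_right e7 (by linarith)
        _ = (x + x ^ 2) * (4 * y * (1 - q j)) := by ring
  refine key.trans (mul_le_mul_of_nonneg_right ?_ (s_pos _).le)
  have h5 := q_mono hj
  nlinarith

end Pool.Agent.Q107.IS
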