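import Pool.Agent.Q107.IS.Basic

set_option autoImplicit false

/-!
# The list of the lengths at time `n`, and the asymptotic estimate
-/

namespace Pool.Agent.Q107.IS

open Real

/-- the lengths at time `n`, from left to right -/
noncomputable def lengths (n : ℕ) : List ℝ :=
  (List.range' (2 ^ (Nat.log 2 n + 1)) (2 * n - 2 ^ (Nat.log 2 n + 1))).map s ++
    (List.range' n (2 ^ (Nat.log 2 n + 1) - n)).map s

theorem log_eq {k j : ℕ} (h1 : 2 ^ j ≤ k) (h2 : k < 2 ^ (j + 1)) : Nat.log 2 k = j :=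
  (Nat.log_eq_iff (Or.inr ⟨by norm_num, by
    have := Nat.pos_of_ne_zero (pow_ne_zero j (two_ne_zero : (2 : ℕ) ≠ 0))
    omega⟩)).2 ⟨h1, h2⟩

theorem lengths_one : lengths 1 = [1] := by
  unfold lengths
  have h : Nat.log 2 1 = 0 := by simp
  rw [h]
  norm_num [s_one]

theorem range'_two (a m : ℕ) :
    List.range' a (m + 2) = List.range' a m ++ [a + m, a + m + 1] := by
  rw [show m + 2 = m + 1 + 1 from rfl, List.range'_concat, List.range'_concat]
  simp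
  omega

/-- at time `n` the interval of length `s n` is cut into two of lengths `s (2 n)`, `s (2 n + 1)` -/
theorem lengths_succ {n : ℕ} (hn : 1 ≤ n) : ∃ l r : List ℝ, lengths n = l ++ s n :: r ∧
    lengths (n + 1) = l ++ s (2 * n) :: s (2 * n + 1) :: r := by
  obtain ⟨j, h1, h2⟩ := exists_level hn
  have hp : 2 ^ (j + 1) = 2 * 2 ^ j := pow_succ' 2 j
  have hq : 2 ^ (j + 1 + 1) = 2 * 2 ^ (j + 1) := pow_succ' 2 (j + 1)
  refine ⟨(List.range' (2 ^ (j + 1)) (2 * n - 2 ^ (j + 1))).map s,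
    (List.range' (n + 1) (2 ^ (j + 1) - n - 1)).map s, ?_, ?_⟩
  · unfold lengths
    rw [log_eq h1 h2]
    obtain ⟨m, hm⟩ : ∃ m, 2 ^ (j + 1) - n = m + 1 := ⟨2 ^ (j + 1) - n - 1, by omega⟩
    rw [hm, List.range'_succ, List.map_cons, Nat.add_sub_cancel]
  · unfold lengths
    rcases Nat.lt_or_ge (n + 1) (2 ^ (j + 1)) with h3 | h3
    · rw [log_eq (k := n + 1) (j := j) (by omega) h3]
      have e1 : 2 * (n + 1) - 2 ^ (j + 1) = (2 * n - 2 ^ (j + 1)) + 2 := by omega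
      have e2 : 2 ^ (j + 1) + (2 * n - 2 ^ (j + 1)) = 2 * n := by omega
      have e3 : 2 ^ (j + 1) - (n + 1) = 2 ^ (j + 1) - n - 1 := by omega
      rw [e1, range'_two, e2, e3]
      simp
    · have h4 : n + 1 = 2 ^ (j + 1) := by omega
      rw [log_eq (k := n + 1) (j := j + 1) (by omega) (by omega)]
      have e1 : 2 * (n + 1) - 2 ^ (j + 1 + 1) = 0 := by omega
      have e2 : 2 ^ (j + 1 + 1) - (n + 1) = (2 * n - 2 ^ (j + 1)) + 2 := by omega
      have e3 : 2 ^ (j + 1) - n - 1 = 0 := by omega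
      have e4 : 2 ^ (j + 1) + (2 * n - 2 ^ (j + 1)) = 2 * n := by omega
      rw [e1, e2, e3, List.range'_zero, List.map_nil, List.nil_append, List.range'_zero,
        List.map_nil, h4, range'_two, e4]
      simp

theorem mem_lengths {n : ℕ} (hn : 1 ≤ n) {x : ℝ} (hx : x ∈ lengths n) :
    ∃ k, n ≤ k ∧ k ≤ 2 * n - 1 ∧ x = s k := by
  obtain ⟨j, h1, h2⟩ := exists_level hn
  have hp : 2 ^ (j + 1) = 2 * 2 ^ j := pow_succ' 2 j
  unfold lengths at hx
  rw [log_eq h1 h2, List.mem_append, List.mem_map, List.mem_map] at hx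
  rcases hx with ⟨k, hk, rfl⟩ | ⟨k, hk, rfl⟩
  · rw [List.mem_range'_1] at hk
    exact ⟨k, by omega, by omega, rfl⟩
  · rw [List.mem_range'_1] at hk
    exact ⟨k, by omega, by omega, rfl⟩

theorem ratio_le {t J : ℕ} (ht : 1 ≤ t) (hJ : t < 2 ^ J) {a b : ℝ} (ha : a ∈ lengths t)
    (hb : b ∈ lengths t) : a / b ≤ q J + q J ^ 2 := by
  obtain ⟨k, hk1, hk2, rfl⟩ := mem_lengths ht ha
  obtain ⟨l, hl1, hl2, rfl⟩ := mem_lengths ht hb
  rw [div_le_iff₀ (s_pos l)]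
  calc s k ≤ s t := s_anti ht hk1
    _ ≤ (q J + q J ^ 2) * s (2 * t - 1) := s_ratio ht hJ
    _ ≤ (q J + q J ^ 2) * s l := by
        apply mul_le_mul_of_nonneg_left (s_anti (by omega) hl2)
        have := q_pos J
        positivity

theorem exp_neg_le {x : ℝ} (hx : 0 ≤ x) : Real.exp (-x) ≤ 1 - x + x ^ 2 / 2 := by
  have h1 := Real.quadratic_le_exp_of_nonneg hx
  have h2 : 0 < 1 + x + x ^ 2 / 2 := by positivity
  rw [Real.exp_neg, inv_le_iff_one_le_mul₀ (Real.exp_pos x)]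
  have h3 : 0 ≤ 1 - x + x ^ 2 / 2 := by nlinarith [sq_nonneg (x - 1)]
  calc (1 : ℝ) ≤ (1 - x + x ^ 2 / 2) * (1 + x + x ^ 2 / 2) := by nlinarith [sq_nonneg (x ^ 2)]
    _ ≤ (1 - x + x ^ 2 / 2) * Real.exp x := mul_le_mul_of_nonneg_left h1 h3

theorem q_bound (J : ℕ) : q J + q J ^ 2 ≤
    2 - 3 * Real.log 2 / 2 ^ J + 5 / 2 * (Real.log 2 / 2 ^ J) ^ 2 := by
  have h0 : 0 < Real.log 2 := Real.log_pos (by norm_num)
  set x := Real.log 2 / 2 ^ J with hx
  have hx0 : 0 ≤ x := by positivity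
  have h1 : q J = Real.exp (-x) := rfl
  have h2 : q J ^ 2 = Real.exp (-(2 * x)) := by
    rw [h1, ← Real.exp_nat_mul]
    congr 1
    push_cast
    ring
  rw [h2, h1]
  have h3 := exp_neg_le hx0
  have h4 := exp_neg_le (x := 2 * x) (by linarith)
  have h5 : 3 * Real.log 2 / 2 ^ J = 3 * x := by rw [hx]; ring
  rw [h5]
  nlinarith

/-- for every `c < 3 log 2` the bound `q + q ^ 2 < 2 - c / n - C / n ^ 2` holds at `n = 2 ^ J - 1` for
all large `J` -/
theorem eventually_lt (c C : ℝ) (hc : c < 3 * Real.log 2) : ∃ J₀ : ℕ, ∀ J : ℕ, J₀ ≤ J →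
    q J + q J ^ 2 < 2 - c / ((2 ^ J - 1 : ℕ) : ℝ) - C / ((2 ^ J - 1 : ℕ) : ℝ) ^ 2 := by
  have h0 : 0 < Real.log 2 := Real.log_pos (by norm_num)
  have h1 : Real.log 2 < 1 := by
    have := Real.log_two_lt_d9
    linarith
  set ε := 3 * Real.log 2 - c with hε
  have hε0 : 0 < ε := by linarith
  obtain ⟨J₀, hJ₀⟩ := pow_unbounded_of_one_lt ((3 + 2 * |c| + 4 * |C|) / ε + 2) (one_lt_two (α := ℝ))
  refine ⟨J₀, fun J hJ => ?_⟩
  refine (q_bound J).trans_lt ?_
  have hN : (3 + 2 * |c| + 4 * |C|) / ε + 2 < (2 : ℝ) ^ J :=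
    hJ₀.trans_le (pow_le_pow_right₀ (by norm_num) hJ)
  have hcast : ((2 ^ J - 1 : ℕ) : ℝ) = 2 ^ J - 1 := by
    rw [Nat.cast_sub (Nat.one_le_two_pow)]
    push_cast
    ring
  rw [hcast]
  set N : ℝ := 2 ^ J with hNdef
  have hpos : 0 ≤ (3 + 2 * |c| + 4 * |C|) / ε := by positivity
  have hN2 : 2 < N := by linarith
  have hN0 : 0 < N := by linarith
  have hNe : 3 + 2 * |c| + 4 * |C| < N * ε := by
    have : (3 + 2 * |c| + 4 * |C|) / ε < N := by linarith
    rwa [div_lt_iff₀ hε0] at this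
  -- c / (N - 1) ≤ c / N + 2 |c| / N ^ 2
  have hc1 : c / (N - 1) ≤ c / N + 2 * |c| / N ^ 2 := by
    have hN1 : N - 1 ≠ 0 := ne_of_gt (by linarith)
    have e1 : c / (N - 1) - c / N = c / (N * (N - 1)) := by
      field_simp
      ring
    have e2 : c / (N * (N - 1)) ≤ |c| / (N * (N - 1)) :=
      div_le_div_of_nonneg_right (le_abs_self c) (by nlinarith)
    have e3 : |c| / (N * (N - 1)) ≤ 2 * |c| / N ^ 2 := by
      rw [div_le_div_iff₀ (by nlinarith) (by positivity)]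
      have : 0 ≤ |c| := abs_nonneg c
      nlinarith [mul_nonneg this (mul_nonneg hN0.le (by linarith : (0 : ℝ) ≤ N - 2))]
    linarith
  have hC1 : C / (N - 1) ^ 2 ≤ 4 * |C| / N ^ 2 := by
    have e2 : C / (N - 1) ^ 2 ≤ |C| / (N - 1) ^ 2 :=
      div_le_div_of_nonneg_right (le_abs_self C) (by positivity)
    have e3 : |C| / (N - 1) ^ 2 ≤ 4 * |C| / N ^ 2 := by
      rw [div_le_div_iff₀ (by nlinarith) (by positivity)]
      have h4 : 0 ≤ |C| := abs_nonneg C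
      have h5 : N ^ 2 ≤ 4 * (N - 1) ^ 2 := by nlinarith
      nlinarith
    linarith
  have hl : 5 / 2 * (Real.log 2 / N) ^ 2 ≤ (5 / 2) / N ^ 2 := by
    rw [div_pow]
    have : Real.log 2 ^ 2 ≤ 1 := by nlinarith
    calc 5 / 2 * (Real.log 2 ^ 2 / N ^ 2) ≤ 5 / 2 * (1 / N ^ 2) := by
          apply mul_le_mul_of_nonneg_left _ (by norm_num)
          exact div_le_div_of_nonneg_right this (by positivity)
      _ = (5 / 2) / N ^ 2 := by ring
  have hfin : (5 / 2) / N ^ 2 + 2 * |c| / N ^ 2 + 4 * |C| / N ^ 2 < ε / N := by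
    rw [← add_div, ← add_div, div_lt_div_iff₀ (by positivity) hN0]
    nlinarith
  have hεN : ε / N = 3 * Real.log 2 / N - c / N := by rw [hε]; ring
  linarith

end Pool.Agent.Q107.IS
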